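import Pool.Agent.Helper37.SU.Stmts

set_option autoImplicit false

/-!
SU, module MAIN: the error bound for special numbers of nodes.
-/

namespace Pool.Agent.Helper37.SU

open MeasureTheory Finset
open scoped ENNReal Classical

theorem main_geo (b k : ℕ) (hb : 2 ≤ b) : ∑ l ∈ range (k + 1), b ^ l ≤ 2 * b ^ k := by
  induction k with
  | zero => simp
  | succ k ih =>
    rw [Finset.sum_range_succ]
    have : b ^ k * 2 ≤ b ^ (k + 1) := by
      rw [pow_succ]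
      exact Nat.mul_le_mul_left _ hb
    omega

theorem main_ell_le (b d n : ℕ) (hb : 3 ≤ b) (hd : 2 ≤ d) (hn : 2 ≤ n) :
    b ^ ell b d n ≤ b * n ^ (d - 1) := by
  unfold ell
  have h1 : 1 < n ^ (d - 1) := Nat.one_lt_pow (by omega) (by omega)
  have hpos : 0 < Nat.clog b (n ^ (d - 1)) := Nat.clog_pos (by omega) (by omega)
  have h2 := Nat.pow_pred_clog_lt_self (b := b) (by omega) h1
  have h3 : b ^ Nat.clog b (n ^ (d - 1)) = b * b ^ (Nat.clog b (n ^ (d - 1))).pred := by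
    obtain ⟨c, hc⟩ := Nat.exists_eq_succ_of_ne_zero hpos.ne'
    rw [hc, Nat.pred_succ, pow_succ, mul_comm]
  rw [h3]
  exact Nat.mul_le_mul_left _ h2.le

theorem main_ell_ge (b d n : ℕ) (hb : 3 ≤ b) : n ^ (d - 1) ≤ b ^ ell b d n := by
  unfold ell
  exact Nat.le_pow_clog (by omega) _

theorem main_ell_n (b d n : ℕ) (hb : 3 ≤ b) (hd : 2 ≤ d) (hn : 2 ≤ n) :
    ell b d n ≤ (d + 1) * n := by
  have h1 := main_ell_le b d n hb hd hn
  have h2 : b * n ^ (d - 1) ≤ b ^ ((d + 1) * n) := by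
    have h3 : n ≤ b ^ n := (Nat.lt_pow_self (by omega)).le
    calc b * n ^ (d - 1) ≤ b * (b ^ n) ^ (d - 1) := by gcongr
      _ = b ^ (1 + n * (d - 1)) := by rw [pow_add, pow_one, pow_mul]
      _ ≤ b ^ ((d + 1) * n) := by
        apply Nat.pow_le_pow_right (by omega)
        obtain ⟨e, rfl⟩ : ∃ e, d = e + 1 := ⟨d - 1, by omega⟩
        simp only [Nat.add_sub_cancel]
        nlinarith
  exact (Nat.pow_le_pow_iff_right (by omega)).mp (h1.trans h2)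

theorem main_k0 (b d n : ℕ) (κ : ℝ) (hb : 3 ≤ b) (hκ : 0 < κ) (hn : 2 ≤ n) :
    (b : ℝ) ^ (k0 b d κ n) ≤ b * (n : ℝ) ^ (((d - 1 : ℕ) : ℝ) * κ) := by
  have hb1 : (1 : ℝ) < b := by
    have : (3 : ℝ) ≤ b := by exact_mod_cast hb
    linarith
  have hn0 : (0 : ℝ) < n := by
    have : (2 : ℝ) ≤ n := by exact_mod_cast hn
    linarith
  have hn1 : (1 : ℝ) ≤ n := by
    have : (2 : ℝ) ≤ n := by exact_mod_cast hn
    linarith
  have hN1 : (1 : ℝ) ≤ (n : ℝ) ^ (d - 1) := one_le_pow₀ hn1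
  have hN0 : (0 : ℝ) < (n : ℝ) ^ (d - 1) := by linarith
  have h0 : 0 ≤ κ * Real.logb b ((n : ℝ) ^ (d - 1)) :=
    mul_nonneg hκ.le (Real.logb_nonneg hb1 hN1)
  have h1 : ((k0 b d κ n : ℕ) : ℝ) ≤ κ * Real.logb b ((n : ℝ) ^ (d - 1)) + 1 := by
    unfold k0
    exact (Nat.ceil_lt_add_one h0).le
  calc (b : ℝ) ^ (k0 b d κ n) = (b : ℝ) ^ ((k0 b d κ n : ℕ) : ℝ) := by
        rw [Real.rpow_natCast]
    _ ≤ (b : ℝ) ^ (κ * Real.logb b ((n : ℝ) ^ (d - 1)) + 1) :=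
        Real.rpow_le_rpow_of_exponent_le hb1.le h1
    _ = b * ((b : ℝ) ^ (Real.logb b ((n : ℝ) ^ (d - 1)))) ^ κ := by
        rw [Real.rpow_add (by linarith), Real.rpow_one, mul_comm κ, Real.rpow_mul (by linarith),
          mul_comm]
    _ = b * (n : ℝ) ^ (((d - 1 : ℕ) : ℝ) * κ) := by
        rw [Real.rpow_logb (by linarith) (by linarith) hN0, Real.rpow_mul hn0.le,
          Real.rpow_natCast]

theorem main_k0_n (b d n : ℕ) (κ : ℝ) (hb : 3 ≤ b) (hd : 2 ≤ d) (hκ : 0 < κ) (hκ1 : κ < 1)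
    (hn : 2 ≤ n) : k0 b d κ n ≤ (d + 1) * n := by
  have h1 := main_k0 b d n κ hb hκ hn
  have hb1 : (1 : ℝ) < b := by
    have : (3 : ℝ) ≤ b := by exact_mod_cast hb
    linarith
  have hn1 : (1 : ℝ) ≤ n := by
    have : (2 : ℝ) ≤ n := by exact_mod_cast hn
    linarith
  have h2 : (n : ℝ) ^ (((d - 1 : ℕ) : ℝ) * κ) ≤ (n : ℝ) ^ (d - 1) := by
    rw [← Real.rpow_natCast (n : ℝ) (d - 1)]
    apply Real.rpow_le_rpow_of_exponent_le hn1
    have : (0 : ℝ) ≤ ((d - 1 : ℕ) : ℝ) := Nat.cast_nonneg _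
    nlinarith
  have h3 : (n : ℝ) ≤ (b : ℝ) ^ n := by
    have : n ≤ b ^ n := (Nat.lt_pow_self (by omega)).le
    exact_mod_cast this
  have h4 : (b : ℝ) ^ (k0 b d κ n) ≤ (b : ℝ) ^ ((d + 1) * n) := by
    calc (b : ℝ) ^ (k0 b d κ n) ≤ b * (n : ℝ) ^ (d - 1) :=
          h1.trans (mul_le_mul_of_nonneg_left h2 (by linarith))
      _ ≤ b * ((b : ℝ) ^ n) ^ (d - 1) := by gcongr
      _ = (b : ℝ) ^ (1 + n * (d - 1)) := by rw [pow_add, pow_one, pow_mul]
      _ ≤ (b : ℝ) ^ ((d + 1) * n) := by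
        apply pow_le_pow_right₀ hb1.le
        obtain ⟨e, rfl⟩ : ∃ e, d = e + 1 := ⟨d - 1, by omega⟩
        simp only [Nat.add_sub_cancel]
        nlinarith
  exact (pow_le_pow_iff_right₀ hb1).mp h4

/-- the bound for the number of nodes -/
theorem main_cnt (b d n m n₁ : ℕ) (κ : ℝ) (hb : 3 ≤ b) (hd : 2 ≤ d) (hκ : 0 < κ) (hκ1 : κ < 1)
    (hn : 2 ≤ n) (hm : m = n + k0 b d κ n) (hn₁ : n₁ = m - ell b d n) :
    (((∑ l ∈ range (n₁ + 1), (shp d l).card * b ^ l) + b ^ m : ℕ) : ℝ) ≤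
      ((2 * (d + 4) ^ (d - 1) + 1 : ℕ) : ℝ) * b * (b : ℝ) ^ n *
        (n : ℝ) ^ (((d : ℝ) - 1) * κ) := by
  have h1 : (∑ l ∈ range (n₁ + 1), (shp d l).card * b ^ l) ≤
      (n₁ + 1) ^ (d - 1) * (2 * b ^ n₁) := by
    calc (∑ l ∈ range (n₁ + 1), (shp d l).card * b ^ l) ≤
        ∑ l ∈ range (n₁ + 1), (n₁ + 1) ^ (d - 1) * b ^ l := by
          apply Finset.sum_le_sum
          intro l hl
          rw [mem_range] at hl
          apply Nat.mul_le_mul_right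
          refine (card_shp_le (by omega)).trans ?_
          exact Nat.pow_le_pow_left (by omega) _
      _ = (n₁ + 1) ^ (d - 1) * ∑ l ∈ range (n₁ + 1), b ^ l := by rw [Finset.mul_sum]
      _ ≤ _ := Nat.mul_le_mul_left _ (main_geo b n₁ (by omega))
  have h2 : (n₁ + 1) ^ (d - 1) * b ^ n₁ ≤ (d + 4) ^ (d - 1) * b ^ m := by
    rcases le_or_gt (ell b d n) m with hle | hlt
    · have h3 : n₁ + 1 ≤ (d + 4) * n := by
        have h4 := main_k0_n b d n κ hb hd hκ hκ1 hn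
        have h5 : n₁ ≤ m := by omega
        nlinarith
      calc (n₁ + 1) ^ (d - 1) * b ^ n₁ ≤ ((d + 4) * n) ^ (d - 1) * b ^ n₁ := by gcongr
        _ = (d + 4) ^ (d - 1) * (n ^ (d - 1) * b ^ n₁) := by rw [mul_pow, mul_assoc]
        _ ≤ (d + 4) ^ (d - 1) * (b ^ ell b d n * b ^ n₁) :=
          Nat.mul_le_mul_left _ (Nat.mul_le_mul_right _ (main_ell_ge b d n hb))
        _ = (d + 4) ^ (d - 1) * b ^ m := by
          rw [← pow_add]
          congr 2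
          omega
    · have h3 : n₁ = 0 := by omega
      rw [h3]
      simp only [zero_add, one_pow, pow_zero, mul_one]
      exact Nat.one_le_iff_ne_zero.mpr (by positivity)
  have h3 : (∑ l ∈ range (n₁ + 1), (shp d l).card * b ^ l) + b ^ m ≤
      (2 * (d + 4) ^ (d - 1) + 1) * b ^ m := by
    nlinarith
  have h4 : (b : ℝ) ^ m ≤ b * (b : ℝ) ^ n * (n : ℝ) ^ (((d : ℝ) - 1) * κ) := by
    have h5 := main_k0 b d n κ hb hκ hn
    have h6 : (((d - 1 : ℕ) : ℝ)) = (d : ℝ) - 1 := by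
      rw [Nat.cast_sub (by omega), Nat.cast_one]
    rw [h6] at h5
    rw [hm, pow_add]
    calc (b : ℝ) ^ n * (b : ℝ) ^ k0 b d κ n ≤
        (b : ℝ) ^ n * (b * (n : ℝ) ^ (((d : ℝ) - 1) * κ)) :=
          mul_le_mul_of_nonneg_left h5 (by positivity)
      _ = _ := by ring
  calc (((∑ l ∈ range (n₁ + 1), (shp d l).card * b ^ l) + b ^ m : ℕ) : ℝ) ≤
      (((2 * (d + 4) ^ (d - 1) + 1) * b ^ m : ℕ) : ℝ) := by exact_mod_cast h3
    _ = ((2 * (d + 4) ^ (d - 1) + 1 : ℕ) : ℝ) * (b : ℝ) ^ m := by push_cast; ring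
    _ ≤ ((2 * (d + 4) ^ (d - 1) + 1 : ℕ) : ℝ) *
        (b * (b : ℝ) ^ n * (n : ℝ) ^ (((d : ℝ) - 1) * κ)) :=
          mul_le_mul_of_nonneg_left h4 (Nat.cast_nonneg _)
    _ = _ := by ring

/-- powers of `b` are bounded by powers of `n` -/
theorem main_pow (b d n m k K j : ℕ) (hb : 3 ≤ b) (hd : 2 ≤ d) (hn : 2 ≤ n)
    (hk : m ≤ k + j * ell b d n) (hK : (b + d) * j ≤ K) :
    (b : ℝ) ^ m ≤ (n : ℝ) ^ (K : ℝ) * (b : ℝ) ^ k := by
  rw [Real.rpow_natCast]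
  have h1 : b ^ m ≤ n ^ K * b ^ k := by
    have h2 : b ^ ell b d n ≤ n ^ (b + d) := by
      calc b ^ ell b d n ≤ b * n ^ (d - 1) := main_ell_le b d n hb hd hn
        _ ≤ n ^ b * n ^ (d - 1) := by
          apply Nat.mul_le_mul_right
          exact (Nat.lt_pow_self (by omega : 1 < n)).le
        _ = n ^ (b + (d - 1)) := by rw [pow_add]
        _ ≤ n ^ (b + d) := Nat.pow_le_pow_right (by omega) (by omega)
    calc b ^ m ≤ b ^ (k + j * ell b d n) := Nat.pow_le_pow_right (by omega) hk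
      _ = b ^ k * (b ^ ell b d n) ^ j := by rw [pow_add, mul_comm j, pow_mul]
      _ ≤ b ^ k * (n ^ (b + d)) ^ j := by gcongr
      _ = b ^ k * n ^ ((b + d) * j) := by rw [← pow_mul]
      _ ≤ b ^ k * n ^ K := by
        apply Nat.mul_le_mul_left
        exact Nat.pow_le_pow_right (by omega) hK
      _ = n ^ K * b ^ k := mul_comm _ _
  exact_mod_cast h1

/-- MAIN -/
theorem st_MAIN (hNET : ST_NET) (hERR : ST_ERR) (hNUM : ST_NUM) (hALG : ST_ALG) : ST_MAIN := by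
  intro d p q r κ hd hp1 hp2 hq hr hκ₁ hκ1
  obtain ⟨b, hbge, hbp⟩ := Nat.exists_infinite_primes (max 3 d)
  have hb3 : 3 ≤ b := (le_max_left _ _).trans hbge
  have hbd : d ≤ b := (le_max_right _ _).trans hbge
  set γ : ℝ := r - 1 / p with hγ
  set μ : ℝ := max (1 - 1 / p) (1 / q) with hμ
  have hγ0 : 0 < γ := by rw [hγ]; linarith
  have hp0 : 0 < p := by linarith
  have hq0 : 0 < q := by linarith
  have hμ1 : 1 - 1 / p ≤ μ := le_max_left _ _
  have hμ2 : 1 / q ≤ μ := le_max_right _ _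
  have hμ0 : 0 < μ := lt_of_lt_of_le (by positivity) hμ2
  have hμh : μ < 1 / 2 := by
    apply max_lt
    · have : 1 / 2 < 1 / p := one_div_lt_one_div_of_lt hp0 hp2
      linarith
    · exact one_div_lt_one_div_of_lt (by norm_num) hq
  have hκγ : γ + 2 * μ < κ * (γ + 1) := by
    rw [div_lt_iff₀ (by linarith)] at hκ₁
    exact hκ₁
  have hκ0 : 0 < κ := by
    by_contra hneg
    push Not at hneg
    have : κ * (γ + 1) ≤ 0 := mul_nonpos_of_nonpos_of_nonneg hneg (by linarith)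
    linarith
  obtain ⟨θ, hθ1, hθ2⟩ := exists_between (lt_min hμh (show μ < (κ * (γ + 1) - γ) / 2 by linarith))
  have hθh : θ < 1 / 2 := hθ2.trans_le (min_le_left _ _)
  have hθk : θ < (κ * (γ + 1) - γ) / 2 := hθ2.trans_le (min_le_right _ _)
  have hθ0 : 0 < θ := hμ0.trans hθ1
  have h1θ : 0 < 1 - θ := by linarith
  obtain ⟨v, hv1, hv2⟩ := exists_between (show p < 1 / (1 - θ) by
    rw [lt_div_iff₀ h1θ]
    have h1 : 1 - θ < 1 / p := by linarith
    have h2 : p * (1 - θ) < p * (1 / p) := mul_lt_mul_of_pos_left h1 hp0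
    rwa [mul_one_div_cancel hp0.ne'] at h2)
  have hv2' : v < 2 := by
    refine hv2.trans ?_
    rw [div_lt_iff₀ h1θ]
    linarith
  have hvone : 1 < v := hp1.trans hv1
  obtain ⟨u, hu1, hu2⟩ := exists_between (show 1 / θ < q by
    rw [div_lt_iff₀ hθ0]
    have h1 : 1 / q < θ := hμ2.trans_lt hθ1
    rw [div_lt_iff₀ hq0] at h1
    linarith)
  have hu2' : 2 < u := by
    refine lt_trans ?_ hu1
    rw [lt_div_iff₀ hθ0]
    linarith
  have hd1 : (1 : ℝ) ≤ (d : ℝ) - 1 := by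
    have : (2 : ℝ) ≤ d := by exact_mod_cast hd
    linarith
  set ε : ℝ := -(((d : ℝ) - 1) * (2 * θ - κ + (1 - κ) * γ)) with hε
  have hneg : 2 * θ - κ + (1 - κ) * γ < 0 := by nlinarith
  have hε0 : 0 < ε := by
    rw [hε]
    nlinarith
  obtain ⟨C₀, C₃, CN, n₂, hCN, hNUM'⟩ := hNUM b d γ v q θ ε κ (by omega) hd hγ0 hvone hv2' hq
    hθ0 hθh hε0 hκ0 hκ1 (by rw [hε]; linarith)
  set K : ℕ := 1 + (d + 1) + C₃ * (d + 1) + (b + d) * (1 + C₀) with hK
  have hK0 : (0 : ℝ) < (K : ℝ) := by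
    have : 0 < K := by omega
    exact_mod_cast this
  obtain ⟨CE, hCE, hERR'⟩ := hERR b d p q r u v θ ε (K : ℝ) hb3 (by omega) hp1 hv1
    (hv2'.trans hu2') hu2 hr hθ0 hθh hu1 hv2 hε0 hK0
  set CM : ℝ := ((2 * (d + 4) ^ (d - 1) + 1 : ℕ) : ℝ) * b with hCM
  have hCM0 : 0 < CM := by
    rw [hCM]
    have : (0 : ℝ) < b := by
      have : 0 < b := by omega
      exact_mod_cast this
    positivity
  refine ⟨b, CM + CE * CN, max 2 n₂, hb3, by positivity, ?_⟩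
  intro n hn
  have hn2 : 2 ≤ n := (le_max_left _ _).trans hn
  have hnn : n₂ ≤ n := (le_max_right _ _).trans hn
  set m : ℕ := n + k0 b d κ n with hm
  set n₁ : ℕ := m - ell b d n with hn₁
  set n₀ : ℕ := n₁ - C₀ * ell b d n with hn₀
  set n₃ : ℕ := m + C₃ * ell b d n with hn₃
  obtain ⟨x, hx⟩ := hNET b d m hbp hbd
  obtain ⟨M, y, ψ, hM, hA⟩ := hALG b d m n₀ n₁ n x hb3
  have hbpos : (0 : ℝ) < b := by
    have : 0 < b := by omega
    exact_mod_cast this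
  refine ⟨M, y, ψ, ?_, ?_⟩
  · have h1 := main_cnt b d n m n₁ κ hb3 hd hκ0 hκ1 hn2 hm hn₁
    have h2 : (M : ℝ) ≤ CM * (b : ℝ) ^ n * (n : ℝ) ^ (((d : ℝ) - 1) * κ) := by
      refine le_trans ?_ h1
      exact_mod_cast hM
    refine h2.trans ?_
    have h3 : CM ≤ CM + CE * CN := by nlinarith
    have h4 : (0 : ℝ) ≤ (b : ℝ) ^ n := by positivity
    have h5 : (0 : ℝ) ≤ (n : ℝ) ^ (((d : ℝ) - 1) * κ) := Real.rpow_nonneg (Nat.cast_nonneg _) _
    gcongr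
  · intro Λ c
    have he := main_ell_n b d n hb3 hd hn2
    have hk := main_k0_n b d n κ hb3 hd hκ0 hκ1 hn2
    have hn3 : (n₃ : ℝ) ≤ (K : ℝ) * n := by
      have h1 : n₃ ≤ K * n := by
        have h2 : C₃ * ell b d n ≤ C₃ * ((d + 1) * n) := Nat.mul_le_mul_left _ he
        have h3 : (1 + (d + 1) + C₃ * (d + 1)) * n ≤ K * n := Nat.mul_le_mul_right _ (by omega)
        have h4 : (1 + (d + 1) + C₃ * (d + 1)) * n =
          n + (d + 1) * n + C₃ * ((d + 1) * n) := by ring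
        omega
      exact_mod_cast h1
    have hp0' : (b : ℝ) ^ m ≤ (n : ℝ) ^ (K : ℝ) * (b : ℝ) ^ n₀ := by
      refine main_pow b d n m n₀ K (1 + C₀) hb3 hd hn2 ?_ (by omega)
      have h4 : (1 + C₀) * ell b d n = ell b d n + C₀ * ell b d n := by ring
      omega
    have hp1' : (b : ℝ) ^ m ≤ (n : ℝ) ^ (K : ℝ) * (b : ℝ) ^ n₁ := by
      refine main_pow b d n m n₁ K 1 hb3 hd hn2 (by omega) ?_
      have h5 : (b + d) * (1 + C₀) = (b + d) * 1 + (b + d) * C₀ := by ring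
      omega
    obtain ⟨L, hL⟩ := hERR' n₀ n₁ n₃ n m x hn2 (by omega) (by omega) hn3 hp0' hp1' hx Λ c
    have hN := hNUM' n L hnn
    simp only at hN
    have hfun : (fun t => tp Λ (mc r c) t - ∑ i, tp Λ (mc r c) (y i) * ((ψ i t : ℝ) : ℂ)) =
        (fun t => tp Λ (mc r c) t - Aop b m n₀ n₁ n x (tp Λ (mc r c)) t) := by
      funext t
      rw [hA (tp Λ (mc r c)) t]
    rw [hfun]
    refine hL.trans ?_
    apply mul_le_mul_left
    apply ENNReal.ofReal_le_ofReal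
    calc CE * ∑ l ∈ range (L + 2 * d + 1), ∑ l' ∈ Ioc n₁ L,
        (b : ℝ) ^ (-((l : ℝ) / q)) * (b : ℝ) ^ (-((l' : ℝ) * (r - 1 / p))) *
          TB b d n₀ n₃ n m v θ ε l l' ≤
        CE * (CN * (b : ℝ) ^ (-((n : ℝ) * (γ + 1 / q)))) :=
          mul_le_mul_of_nonneg_left hN hCE.le
      _ = (CE * CN) * (b : ℝ) ^ (-((n : ℝ) * (γ + 1 / q))) := by ring
      _ ≤ (CM + CE * CN) * (b : ℝ) ^ (-((n : ℝ) * (γ + 1 / q))) := by
          apply mul_le_mul_of_nonneg_right (by linarith)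
          exact Real.rpow_nonneg hbpos.le _

end Pool.Agent.Helper37.SU
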